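import Mathlib
import Pool.Agent.H95R2.TG.Final
import Pool.Agent.H95R2.TG.H7

/-! Primes p in [N, 2N] with all prime factors of 2p-1 large and 1 mod 4 and with 4p-3 composite. -/

set_option autoImplicit false

theorem Pool.Agent.Results.MP_39b545_nt.AllSplitSecondTerm.result :
    ∃ c : ℝ, 0 < c ∧ ∃ N₀ : ℕ, ∀ N : ℕ, N₀ ≤ N →
      c * (N / Real.log N ^ 2) ≤
        (Set.ncard {p : ℕ | p.Prime ∧ N ≤ p ∧ p ≤ 2 * N ∧
          (∀ r : ℕ, r.Prime → r ∣ 2 * p - 1 → r % 4 = 1 ∧ (N : ℝ) ^ c ≤ (r : ℝ)) ∧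
          ¬ (4 * p - 3).Prime} : ℝ) := by
  classical
  obtain ⟨c, hc, N0, h⟩ := Pool.Agent.H95R2.TG.chain2 Pool.Agent.H95R2.TG.main_holds
  refine ⟨c, hc, N0, fun N hN => (h N hN).trans ?_⟩
  rw [← Set.ncard_coe_finset]
  have hfin : {p : ℕ | p.Prime ∧ N ≤ p ∧ p ≤ 2 * N ∧
          (∀ r : ℕ, r.Prime → r ∣ 2 * p - 1 → r % 4 = 1 ∧ (N : ℝ) ^ c ≤ (r : ℝ)) ∧
          ¬ (4 * p - 3).Prime}.Finite :=
    (Set.finite_Iic (2 * N)).subset fun n hn => hn.2.2.1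
  refine Nat.cast_le.2 (Set.ncard_le_ncard ?_ hfin)
  intro p hp
  simp only [Finset.coe_filter, Finset.mem_Icc, Set.mem_ofPred_eq] at hp
  obtain ⟨⟨h1, h2⟩, h3, h60, h4⟩ := hp
  refine ⟨h3, h1, h2, fun r hr hd => h4 r (Nat.mem_primeFactors.2 ⟨hr, hd, ?_⟩), fun hp5 => ?_⟩
  · have := h3.two_le
    omega
  · have h5 : 5 ∣ 4 * p - 3 := by omega
    have h6 := (Nat.prime_dvd_prime_iff_eq Nat.prime_five hp5).1 h5
    omega
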